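import Mathlib

namespace Pool.Agent.Results.MP_f24352_gt.NotChar
open Set Filter Topology Pointwise

abbrev K := ZMod 2
abbrev M := ℕ → K
abbrev I := Module.Basis.ofVectorSpaceIndex K M

def X : Type := (ℕ × ℕ →₀ K) × M

noncomputable instance : AddCommGroup X := inferInstanceAs (AddCommGroup ((ℕ × ℕ →₀ K) × M))

noncomputable def b : Module.Basis I K M := Module.Basis.ofVectorSpace K M

noncomputable def e : X →+ ((ℕ × ℕ) ⊕ I → K) where
  toFun x := Sum.elim (fun p => x.1 p + x.2 p.1) fun i => b.repr x.2 i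
  map_zero' := by
    funext p
    rcases p with p | i
    · exact add_zero _
    · exact DFunLike.congr_fun (map_zero b.repr) i
  map_add' x y := by
    funext p
    rcases p with p | i
    · exact add_add_add_comm _ _ _ _
    · exact DFunLike.congr_fun (map_add b.repr x.2 y.2) i

noncomputable instance : TopologicalSpace X := TopologicalSpace.induced e inferInstance

lemma nb {U : Set X} (hU : U ∈ 𝓝 (0 : X)) :
    ∃ s : Finset ((ℕ × ℕ) ⊕ I), ∀ x, (∀ i ∈ s, e x i = 0) → x ∈ U := by
  rw [nhds_induced, mem_comap, map_zero, nhds_pi] at hU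
  obtain ⟨t, ht, h⟩ := hU
  obtain ⟨s, u, h1, h2⟩ := mem_pi'.1 ht
  exact ⟨s, fun x hx => h (h2 fun i hi => by rw [hx i hi]; exact mem_of_mem_nhds (h1 i))⟩

lemma ce (i : (ℕ × ℕ) ⊕ I) : Continuous fun x => e x i :=
  (continuous_apply i).comp continuous_induced_dom

noncomputable def F : AddSubgroup X := (AddMonoidHom.snd (ℕ × ℕ →₀ K) M).ker

lemma mF (x : X) : x ∈ F ↔ x.2 = 0 := Iff.rfl

theorem result : ∃ (X : Type) (_ : AddCommGroup X) (_ : TopologicalSpace X),
    IsTopologicalAddGroup X ∧ T2Space X ∧
    (∀ U ∈ 𝓝 (0 : X), ∃ E : Set X, E.Finite ∧ U + E = univ) ∧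
    ∃ F : AddSubgroup X, IsClosed (F : Set X) ∧ IsGδ (F : Set X) ∧
      ∀ v : ℕ → X →+ AddCircle (1 : ℝ), (∀ n, Continuous (v n)) →
        (F : Set X) ≠ ⋂ n, {x | v n x = 0} := by
  classical
  refine ⟨X, inferInstance, inferInstance, topologicalAddGroup_induced e, ?_, fun U hU => ?_,
    F, ?_, ?_, fun v hv h => ?_⟩
  · refine IsEmbedding.t2Space (f := e) ⟨⟨rfl⟩, (injective_iff_map_eq_zero e).2 fun x hx => ?_⟩
    have h2 : x.2 = 0 := b.repr.injective (Finsupp.ext fun i => by
      rw [map_zero]; exact congrFun hx (.inr i))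
    refine Prod.ext (Finsupp.ext fun p => ?_) h2
    have : x.1 p + x.2 p.1 = 0 := congrFun hx (.inl p)
    rw [h2] at this
    exact (add_zero _).symm.trans this
  · obtain ⟨s, hs⟩ := nb hU
    let φ : X → s → K := fun x i => e x i
    refine ⟨range (Function.invFun φ), finite_range _, eq_univ_of_forall fun x => ?_⟩
    refine ⟨x - Function.invFun φ (φ x), hs _ fun i hi => ?_, _, ⟨φ x, rfl⟩, sub_add_cancel _ _⟩
    have : φ (Function.invFun φ (φ x)) = φ x := Function.invFun_eq ⟨x, rfl⟩
    rw [map_sub, Pi.sub_apply, sub_eq_zero]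
    exact (congrFun this ⟨i, hi⟩).symm
  · have : (F : Set X) = ⋂ i : I, (fun x => e x (.inr i)) ⁻¹' {0} := by
      ext x
      simp only [SetLike.mem_coe, mF, mem_iInter, mem_preimage, mem_singleton_iff]
      refine ⟨fun h i => ?_, fun h => b.repr.injective (Finsupp.ext fun i => by
        rw [map_zero]; exact h i)⟩
      change b.repr x.2 i = 0
      rw [h]; simp
    rw [this]
    exact isClosed_iInter fun i => isClosed_singleton.preimage (ce _)
  · have : (F : Set X) = ⋂ q : ℕ × ℕ, ⋃ j ∈ Ici q.2, (fun x => e x (.inl (q.1, j))) ⁻¹' {0} := by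
      have hb : ∀ x : X, ∃ N, ∀ i j, N ≤ j → x.1 (i, j) = 0 := fun x => by
        obtain ⟨N, hN⟩ := (x.1.support.image Prod.snd).bddAbove
        refine ⟨N + 1, fun i j hj => by_contra fun h => ?_⟩
        have : j ≤ N := hN (Finset.mem_coe.2
          (Finset.mem_image_of_mem Prod.snd (Finsupp.mem_support_iff.2 h)))
        omega
      ext x
      obtain ⟨N, hN⟩ := hb x
      simp only [SetLike.mem_coe, mF, mem_iInter, mem_iUnion, mem_preimage, mem_singleton_iff]
      refine ⟨fun h q => ⟨q.2 + N, by simp, ?_⟩, fun h => funext fun i => ?_⟩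
      · change x.1 _ + x.2 _ = 0
        rw [h, hN _ _ (by omega)]; simp
      · obtain ⟨j, hj, h2⟩ := h (i, N)
        change x.1 _ + x.2 _ = 0 at h2
        rw [hN _ _ hj] at h2
        simpa using h2
    rw [this]
    exact IsGδ.iInter_of_isOpen fun q =>
      isOpen_biUnion fun j _ => (isOpen_discrete _).preimage (ce _)
  · have h1 : ∀ n, {i : I | v n ((0, b i) : (ℕ × ℕ →₀ K) × M) ≠ 0}.Finite := fun n => by
      have hf := AddCircle.finite_setOfPred_addOrderOf_eq (1 : ℝ) two_pos
      obtain ⟨s, hs⟩ := nb (U := v n ⁻¹' {u | addOrderOf u = 2}ᶜ)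
        ((hf.isClosed.isOpen_compl.preimage (hv n)).mem_nhds (by simp))
      refine (s.finite_toSet.preimage Sum.inr_injective.injOn).subset fun i hi => ?_
      by_contra hc
      let f : ℕ × ℕ →₀ K := Finsupp.onFinset (s.preimage Sum.inl Sum.inl_injective.injOn)
        (fun p => if Sum.inl p ∈ s then -b i p.1 else 0) fun p hp => by
          by_contra h; simp only [Finset.mem_preimage] at h; simp [h] at hp
      let x : X := (f, b i)
      let y : X := (f, 0)
      let z : X := (0, b i)
      have hx := hs x (by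
        rintro (p | j) hp
        · change f p + b i p.1 = 0
          simp [f, hp, CharTwo.add_self_eq_zero]
        · change b.repr (b i) j = 0
          have : i ≠ j := by rintro rfl; exact hc hp
          simp [this])
      have hy : v n y = 0 := mem_iInter.1 (h ▸ (mF y).2 rfl : y ∈ ⋂ n, {x | v n x = 0}) n
      have hxy : x = y + z := Prod.ext (add_zero _).symm (zero_add _).symm
      have hz : z + z = 0 := Prod.ext (add_zero _) (funext fun k => CharTwo.add_self_eq_zero _)
      refine hx ?_
      rw [hxy, map_add, hy, zero_add]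
      exact addOrderOf_eq_prime (by rw [two_nsmul, ← map_add, hz, map_zero]) hi
    have h2 : (univ : Set I).Countable := by
      refine (countable_iUnion fun n => (h1 n).countable).mono fun i _ => ?_
      by_contra hc
      simp only [mem_iUnion, mem_ofPred_eq, not_exists, not_not] at hc
      have : ((0, b i) : (ℕ × ℕ →₀ K) × M) ∈ (F : Set X) := h ▸ mem_iInter.2 hc
      exact b.ne_zero i this
    have h3 : Countable I := countable_univ_iff.1 h2
    have h4 : Countable M := b.repr.injective.countable
    obtain ⟨f, hf⟩ := exists_surjective_nat M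
    obtain ⟨n, hn⟩ := hf fun n => f n n + 1
    simpa using congrFun hn n

end Pool.Agent.Results.MP_f24352_gt.NotChar
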